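import Pool.Agent.H24.Sup2

set_option autoImplicit false

namespace Pool.Agent.Results.MP_1f99fc_al.Coarsest

open Pool.Agent.H24.Sup

/-- the irreducible complex characters of a group -/
def Irr (G : Type) [Group G] : Set (G → ℂ) :=
  {χ | ∃ V : FDRep ℂ G, CategoryTheory.Simple V ∧ V.character = χ}

/-- a supercharacter theory (Diaconis-Isaacs) -/
structure SCT (G : Type) [Group G] where
  /-- blocks of irreducible characters -/
  X : Set (Set (G → ℂ))
  /-- superclasses -/
  K : Set (Set G)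
  X_nonempty : ∀ x ∈ X, x.Nonempty
  X_union : ⋃₀ X = Irr G
  X_disjoint : X.PairwiseDisjoint id
  K_nonempty : ∀ k ∈ K, k.Nonempty
  K_union : ⋃₀ K = Set.univ
  K_disjoint : K.PairwiseDisjoint id
  card_eq : Nonempty (X ≃ K)
  one_mem : {1} ∈ K
  const : ∀ x ∈ X, ∀ k ∈ K, ∀ g ∈ k, ∀ h ∈ k,
    (∑ᶠ ψ ∈ x, ψ 1 * ψ g) = ∑ᶠ ψ ∈ x, ψ 1 * ψ h

/-- Andre's superclasses of the unitriangular group `UT n F` -/
def andre (n : ℕ) (F : Type) [Field F] : Set (Set (UT n F)) :=
  {k | ∃ x : UT n F, k = {g | ∃ u v : UT n F, M g - 1 = M u * (M x - 1) * M v}}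

/-- the theory contains the single-box supercharacter at `(i,j)` with label `a` as an irreducible
character: some positive multiple of the orbit sum is an irreducible character which is a block -/
def ContainsBox {n : ℕ} {F : Type} [Field F] (θ : AddChar F ℂ) (T : SCT (UT n F))
    (i j : Fin n) (a : F) : Prop :=
  ∃ χ : UT n F → ℂ, χ ∈ Irr (UT n F) ∧ {χ} ∈ T.X ∧
    ∃ c : ℝ, 0 < c ∧ ∀ g, χ g = (c : ℂ) * orbSum θ (box i j a) g

/-- Every supercharacter theory of `U_n(F_q)` containing all single-box supercharacters as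
irreducible characters is finer than Andre's; if it is coarser than Andre's, it has the same
superclasses. -/
theorem result (n : ℕ) (F : Type) [Field F] [Fintype F] (θ : AddChar F ℂ)
    (hθ : ∃ x, θ x ≠ 1) (T : SCT (UT n F))
    (hT : ∀ i j : Fin n, i < j → ∀ a : F, a ≠ 0 → ContainsBox θ T i j a) :
    (∀ k ∈ T.K, ∃ s ∈ andre n F, k ⊆ s) ∧
    ((∀ s ∈ andre n F, ∃ k ∈ T.K, s ⊆ k) → T.K = andre n F) := by
  have main : ∀ k ∈ T.K, ∀ g ∈ k, ∀ h ∈ k,
      ∃ u v : UT n F, M h - 1 = M u * (M g - 1) * M v := by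
    intro k hk g hg h hh
    apply separate' θ hθ
    intro i j hij a ha
    obtain ⟨χ, hχ, hX, c, hc, hc2⟩ := hT i j hij a ha
    have h1 := T.const _ hX k hk g hg h hh
    rw [finsum_mem_singleton, finsum_mem_singleton] at h1
    have h2 : χ 1 ≠ 0 := by
      obtain ⟨V, hV, rfl⟩ := hχ
      rw [FDRep.char_one, Nat.cast_ne_zero]
      intro h0
      haveI : Subsingleton V.V := Module.finrank_zero_iff.1 h0
      apply CategoryTheory.Simple.not_isZero V
      rw [CategoryTheory.Limits.IsZero.iff_id_eq_zero]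
      ext x
      exact Subsingleton.elim _ _
    have h3 := mul_left_cancel₀ h2 h1
    rw [hc2, hc2] at h3
    exact mul_left_cancel₀ (by exact_mod_cast hc.ne') h3
  have first : ∀ k ∈ T.K, ∃ s ∈ andre n F, k ⊆ s := by
    intro k hk
    obtain ⟨x, hx⟩ := T.K_nonempty k hk
    exact ⟨_, ⟨x, rfl⟩, fun g hg => main k hk x hx g hg⟩
  refine ⟨first, fun hco => ?_⟩
  have self : ∀ x : UT n F, x ∈ {g | ∃ u v : UT n F, M g - 1 = M u * (M x - 1) * M v} := by
    intro x
    exact ⟨1, 1, by rw [M_one, Matrix.one_mul, Matrix.mul_one]⟩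
  have key : ∀ x : UT n F, ∀ k ∈ T.K, x ∈ k →
      k = {g | ∃ u v : UT n F, M g - 1 = M u * (M x - 1) * M v} := by
    intro x k hk hx
    apply Set.Subset.antisymm
    · intro g hg
      exact main k hk x hx g hg
    · obtain ⟨k', hk', hs⟩ := hco _ ⟨x, rfl⟩
      have hx' : x ∈ k' := hs (self x)
      have hkk : k = k' := by
        by_contra hne
        have := T.K_disjoint hk hk' hne
        exact (Set.disjoint_left.1 this) hx hx'
      rw [hkk]
      exact hs
  ext k
  constructor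
  · intro hk
    obtain ⟨x, hx⟩ := T.K_nonempty k hk
    exact ⟨x, key x k hk hx⟩
  · rintro ⟨x, rfl⟩
    have hx : x ∈ ⋃₀ T.K := by rw [T.K_union]; exact Set.mem_univ x
    obtain ⟨k, hk, hxk⟩ := hx
    rw [← key x k hk hxk]
    exact hk

end Pool.Agent.Results.MP_1f99fc_al.Coarsest
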